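import Pool.Agent.Helper10.GO.GoalsA

/-!
# Project GO (MP_6af536_nt): packet DIF
-/

set_option autoImplicit false

open MvPolynomial

namespace Pool.Agent.Helper90.GO

open Pool.Agent.Helper10.GO

theorem le_of_weight {r N : ℕ} {β : Fin r → ℕ} {d : Fin r × Fin (N + 1) →₀ ℕ}
    (h : Finsupp.weight (bw r N) d = β) (p : Fin r × Fin (N + 1)) : d p ≤ β p.1 := by
  rw [← h, Finsupp.weight_apply, Finsupp.sum, Finset.sum_apply]
  by_cases hp : d p = 0
  · rw [hp]; exact Nat.zero_le _
  · have h1 := Finset.single_le_sum (f := fun q => (d q • bw r N q) p.1)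
      (fun i _ => Nat.zero_le _) (Finsupp.mem_support_iff.2 hp)
    refine le_trans ?_ h1
    simp [bw]

theorem finite_mh (K : Type) [Field K] (r N : ℕ) (β : Fin r → ℕ) : Module.Finite K (mh K r N β) := by
  classical
  have hfin : {d : Fin r × Fin (N + 1) →₀ ℕ | Finsupp.weight (bw r N) d = β}.Finite := by
    refine (Set.finite_Iic (Finsupp.equivFunOnFinite.symm (fun p : Fin r × Fin (N + 1) => β p.1))).subset ?_
    intro d hd
    rw [Set.mem_Iic, Finsupp.le_def]
    intro p
    exact le_of_weight hd p
  have : Finite {d : Fin r × Fin (N + 1) →₀ ℕ | Finsupp.weight (bw r N) d = β} := hfin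
  unfold mh
  rw [weightedHomogeneousSubmodule_eq_finsupp_supported]
  exact Module.Finite.equiv (AddMonoidAlgebra.supportedEquivFinsupp (R := K) (S := K)
    {d : Fin r × Fin (N + 1) →₀ ℕ | Finsupp.weight (bw r N) d = β}).symm

theorem HF_nonneg {K : Type} [Field K] {r N : ℕ} (I : Ideal (MvPolynomial (Fin r × Fin (N + 1)) K))
    (β : Fin r → ℕ) : 0 ≤ HF I β := by
  have := finite_mh K r N β
  unfold HF
  rw [sub_nonneg, Nat.cast_le]
  exact Submodule.finrank_mono inf_le_right

theorem fds_congr {r : ℕ} (js : List (Fin r)) (g g' : (Fin r → ℕ) → ℤ) (β : Fin r → ℕ)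
    (h : ∀ γ, β ≤ γ → g γ = g' γ) : fds js g β = fds js g' β := by
  induction js generalizing g g' β with
  | nil => exact h β le_rfl
  | cons j js ih =>
    show fds js (fd j g) β = fds js (fd j g') β
    apply ih
    intro γ hγ
    unfold fd
    rw [h γ hγ, h (γ + Pi.single j 1) (hγ.trans (fun i => Nat.le_add_right _ _))]

theorem fds_shift {r : ℕ} (js : List (Fin r)) (h : (Fin r → ℕ) → ℤ) (v β : Fin r → ℕ) :
    fds js (fun γ => h (γ + v)) β = fds js h (β + v) := by
  induction js generalizing h β with
  | nil => rfl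
  | cons j js ih =>
    show fds js (fd j (fun γ => h (γ + v))) β = fds js (fd j h) (β + v)
    rw [← ih]
    congr 1
    funext γ
    unfold fd
    rw [add_right_comm]

/-- **DIF**. -/
theorem dif (h1 : S_SATL) (h2 : S_HDF) : S_DIF := by
  intro K _ _ r N q
  induction q with
  | zero =>
    intro I _
    refine ⟨0, fun js hjs β _ => ?_⟩
    have : js = [] := List.eq_nil_of_length_eq_zero (Nat.le_zero.1 hjs)
    subst this
    exact HF_nonneg I β
  | succ q ih =>
    intro I hI
    have key : ∀ j : Fin r, ∃ B : ℕ, ∀ js : List (Fin r), js.length ≤ q → ∀ β : Fin r → ℕ,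
        (∀ i, B ≤ β i) → 0 ≤ fds (j :: js) (HF I) β := by
      intro j
      obtain ⟨J, hIJ, hJ, ⟨B, hB⟩, c, hc⟩ := h1 K r N I hI j
      obtain ⟨hMH, hdf⟩ := h2 K r N J hJ j c hc
      obtain ⟨B', hB'⟩ := ih _ hMH
      refine ⟨max B B', fun js hjs β hβ => ?_⟩
      have heq : ∀ γ : Fin r → ℕ, B ≤ γ j → HF I γ = HF J γ := by
        intro γ hγ
        have e : (Submodule.restrictScalars K I ⊓ mh K r N γ :
            Submodule K (MvPolynomial (Fin r × Fin (N + 1)) K)) =
            Submodule.restrictScalars K J ⊓ mh K r N γ := by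
          apply le_antisymm
          · exact inf_le_inf_right _ hIJ
          · rintro Q ⟨hQ1, hQ2⟩
            exact ⟨hB γ hγ Q hQ2 hQ1, hQ2⟩
        unfold HF
        rw [e]
      have e1 : fds (j :: js) (HF I) β = fds js (fd j (HF I)) β := rfl
      rw [e1, fds_congr js (fd j (HF I)) (fun γ => HF (J ⊔ Ideal.span {∑ i, C (c i) * X (j, i)})
        (γ + Pi.single j 1)) β, fds_shift]
      · apply hB' js hjs
        intro i
        exact ((le_max_right B B').trans (hβ i)).trans (Nat.le_add_right _ _)
      · intro γ hγ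
        have h3 : B ≤ γ j := ((le_max_left B B').trans (hβ j)).trans (hγ j)
        show HF I (γ + Pi.single j 1) - HF I γ = _
        rw [heq γ h3, heq (γ + Pi.single j 1) (h3.trans (Nat.le_add_right _ _))]
        exact hdf γ
    choose B hB using key
    refine ⟨Finset.univ.sup B, fun js hjs β hβ => ?_⟩
    cases js with
    | nil => exact HF_nonneg I β
    | cons j js =>
      apply hB j js (by simpa using hjs)
      intro i
      exact (Finset.le_sup (Finset.mem_univ j)).trans (hβ i)

end Pool.Agent.Helper90.GO
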